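import Pool.Agent.helper8.T6.SpecC2

set_option autoImplicit false

namespace Pool.Agent.T6

open Finset Pool.Agent.T5

theorem TSP : TSP_stmt := by
  classical
  intro LA LA' LB hL d hd t ht hdis
  refine ⟨d.primeFactors.filter (fun p => ¬ p ∣ t.1.1 * t.1.2 ∧ p ≠ 2 ∧ d.factorization p ≤ 2 ∧
      ∃ x ∈ LA p t.1, InC p 1 x t), d.primeFactors.filter (fun p => p ∣ t.1.1 * t.1.2),
    filter_subset _ _, filter_subset _ _, ?_, ?_, ?_, ?_, ?_⟩
  · rw [Finset.disjoint_left]
    intro p hp hp'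
    exact (mem_filter.mp hp).2.1 (mem_filter.mp hp').2
  · intro p hp
    exact ⟨(mem_filter.mp hp).2.2.1, (mem_filter.mp hp).2.2.2.1⟩
  · intro p hp
    exact (mem_filter.mp hp).2
  · intro p hp
    exact (mem_filter.mp hp).2.1
  · intro p hp
    have hpp : p.Prime := Nat.prime_of_mem_primeFactors hp
    have ha : 1 ≤ d.factorization p :=
      (hpp.dvd_iff_one_le_factorization (by omega)).mp (Nat.dvd_of_mem_primeFactors hp)
    have hpad : p ^ d.factorization p ∣ d := Nat.ordProj_dvd d p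
    have hdd : (d : ℤ) ∣ dis t := (Dvd.intro_left (d : ℤ) (by ring : (d : ℤ) * d = (d : ℤ) ^ 2)).trans hdis
    have hpa : (p : ℤ) ^ d.factorization p ∣ dis t := by
      have h1 : ((p ^ d.factorization p : ℕ) : ℤ) ∣ (d : ℤ) := Int.natCast_dvd_natCast.mpr hpad
      push_cast at h1
      exact h1.trans hdd
    have hp2 : (p : ℤ) ^ 2 ∣ dis t := by
      have h1 : (p : ℤ) ∣ (d : ℤ) := Int.natCast_dvd_natCast.mpr (Nat.dvd_of_mem_primeFactors hp)
      exact (pow_dvd_pow_of_dvd h1 2).trans hdis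
    by_cases hr : p ∈ d.primeFactors.filter (fun p => ¬ p ∣ t.1.1 * t.1.2 ∧ p ≠ 2 ∧
        d.factorization p ≤ 2 ∧ ∃ x ∈ LA p t.1, InC p 1 x t)
    · unfold Lp mr ms
      rw [if_pos hr, if_pos hr, if_pos hr]
      exact (mem_filter.mp hr).2.2.2.2
    · unfold Lp mr ms
      rw [if_neg hr, if_neg hr, if_neg hr]
      by_cases hb : p ∈ d.primeFactors.filter (fun p => p ∣ t.1.1 * t.1.2) ∨ p = 2 ∨
          3 ≤ d.factorization p
      · rw [if_pos hb, if_pos hb]
        exact hL.lB p _ hpp ha t ht hpa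
      · rw [if_neg hb, if_neg hb]
        push Not at hb
        obtain ⟨h1, h2, h3⟩ := hb
        have h4 : ¬ p ∣ t.1.1 * t.1.2 := fun h => h1 (mem_filter.mpr ⟨hp, h⟩)
        rcases hL.lA p hpp h2 t ht h4 hp2 with h5 | h5
        · exact absurd (mem_filter.mpr ⟨hp, h4, h2, by omega, h5⟩) hr
        · exact h5

end Pool.Agent.T6
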