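import Pool.Agent.helper82.T6.SpecL2

set_option autoImplicit false

namespace Pool.Agent.T6

open Finset Pool.Agent.helper3.FT

open Classical in
theorem FM_cover (b : ℝ) (y u : ℕ) (s : ℝ) :
    (SB b y u s) ⊆ ((range (2 * u / 25 + 1)).biUnion (SI b y u s)) ∪ SII b y u s := by
  intro p hp
  rw [mem_union]
  by_cases h : ∃ l : ℕ, IsoP y (vv b p.1 p.2) p.1 l ∧ Nat.log 2 l ≤ 2 * u / 25
  · left
    have hex : ∃ i : ℕ, ∃ l : ℕ, IsoP y (vv b p.1 p.2) p.1 l ∧ Nat.log 2 l = i := by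
      obtain ⟨l, hl, _⟩ := h
      exact ⟨_, l, hl, rfl⟩
    refine mem_biUnion.mpr ⟨Nat.find hex, ?_, ?_⟩
    · obtain ⟨l, hl, hl2⟩ := h
      rw [mem_range]
      have := Nat.find_min' hex ⟨l, hl, rfl⟩
      omega
    · unfold SI
      rw [mem_filter]
      exact ⟨hp, Nat.find_spec hex, fun l hl => Nat.find_min' hex ⟨l, hl, rfl⟩⟩
  · right
    push Not at h
    unfold SII
    rw [mem_filter]
    exact ⟨hp, fun l hl => h l hl⟩

theorem FM_zero (b : ℝ) (y : ℕ) (s : ℝ) : ((SU b y 0 s).card : ℝ) ≤ 2 := by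
  classical
  have h1 : (SU b y 0 s).card ≤ 2 := by
    unfold SU PR
    refine (card_filter_le _ _).trans ((card_filter_le _ _).trans ?_)
    simp
  exact_mod_cast h1

theorem FM (hC3 : C3_stmt) (hC4 : C4_stmt) (hDI : DI_stmt) (hEA : EA_stmt) (hEE : EE_stmt) :
    FM_stmt := by
  classical
  obtain ⟨C₃, hC₃, h3, -⟩ := hC3
  obtain ⟨C₄, hC₄, h4⟩ := hC4
  obtain ⟨K₀, hK₀, hD⟩ := hDI
  obtain ⟨Cₐ, C₁, hCₐ, hA⟩ := hEA
  obtain ⟨K₁, hK₁, y₂, hE⟩ := hEE C₁
  obtain ⟨Cd, y₁, hCd, hy₁, hD⟩ := hD (max K₀ K₁) (le_max_left _ _)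
  obtain ⟨Ce, hCe, hE⟩ := hE (max K₀ K₁) (le_max_right _ _)
  refine ⟨2 + C₃ + C₄ + Cd + Cₐ + Ce, max y₁ y₂, by linarith, hy₁.trans (le_max_left _ _), ?_⟩
  intro b y u s Φ hMR hy hΦ hIH
  have hyy₁ : y₁ ≤ y := (le_max_left _ _).trans hy
  have hyy₂ : y₂ ≤ y := (le_max_right _ _).trans hy
  have hy5 : 5 ≤ y := hy₁.trans hyy₁
  have hs0 : 0 < s := lt_of_lt_of_le one_pos hMR.s1
  have hΦ2 := hΦ.two u
  obtain ⟨z, hz⟩ : ∃ z : ℝ, z = (y : ℝ) ^ (-(1 / 20 : ℝ)) := ⟨_, rfl⟩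
  have hy1 : (1 : ℝ) ≤ y := by
    have : 1 ≤ y := by omega
    exact_mod_cast this
  have hz0 : 0 < z := by
    rw [hz]
    positivity
  have hzy : 1 / (y : ℝ) ≤ z := by
    rw [hz, one_div, ← Real.rpow_neg_one]
    exact Real.rpow_le_rpow_of_exponent_le hy1 (by norm_num)
  rw [← hz]
  have h4u : (0 : ℝ) < 4 ^ u := by positivity
  have hzΦ : 0 ≤ z * Φ u := by positivity
  rcases Nat.eq_zero_or_pos u with rfl | hu
  · have h1 := FM_zero b y s
    have h2 : s ^ 7 ≤ 1 := by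
      have h5 := hMR.s2
      have h6 : s ≤ 1 := by simpa using h5
      exact pow_le_one₀ hs0.le h6
    have h7 : ((SU b y 0 s).card : ℝ) * s ^ 7 ≤ 2 * 1 :=
      mul_le_mul h1 h2 (by positivity) (by norm_num)
    have h8 : 0 ≤ (2 + C₃ + C₄ + Cd + Cₐ + Ce) * z * Φ 0 := by
      have := mul_nonneg (by linarith : 0 ≤ 2 + C₃ + C₄ + Cd + Cₐ + Ce) hzΦ
      linarith [mul_assoc (2 + C₃ + C₄ + Cd + Cₐ + Ce) z (Φ 0)]
    rw [pow_zero]
    linarith
  · have hs7 : 0 ≤ s ^ 7 := by positivity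
    -- large powerful part
    have e1 : (((PR y u).filter (fun p => (2 : ℝ) ^ ((u : ℝ) / 25) < pw p.1)).card : ℝ) * s ^ 7 ≤
        C₃ * 4 ^ u := by
      have h5 : s ^ 7 ≤ (2 : ℝ) ^ ((u : ℝ) / 50) := by
        calc s ^ 7 ≤ ((2 : ℝ) ^ ((u : ℝ) / 400)) ^ 7 := pow_le_pow_left₀ hs0.le hMR.s2 7
          _ = (2 : ℝ) ^ ((u : ℝ) / 400 * 7) := by
              rw [← Real.rpow_natCast, ← Real.rpow_mul (by norm_num)]
              norm_num
          _ ≤ (2 : ℝ) ^ ((u : ℝ) / 50) := by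
              apply Real.rpow_le_rpow_of_exponent_le (by norm_num)
              have : (0 : ℝ) ≤ u := Nat.cast_nonneg u
              linarith
      calc (((PR y u).filter (fun p => (2 : ℝ) ^ ((u : ℝ) / 25) < pw p.1)).card : ℝ) * s ^ 7
          ≤ (C₃ * 4 ^ u * (2 : ℝ) ^ (-((u : ℝ) / 50))) * (2 : ℝ) ^ ((u : ℝ) / 50) :=
            mul_le_mul (h3 y u) h5 hs7 (by positivity)
        _ = C₃ * 4 ^ u * ((2 : ℝ) ^ (-((u : ℝ) / 50)) * (2 : ℝ) ^ ((u : ℝ) / 50)) := by ring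
        _ = C₃ * 4 ^ u := by
            rw [← Real.rpow_add (by norm_num)]
            simp
    have e2 : (((SU b y u s).filter (fun p => ¬ Pm p.1 (vv b p.1 p.2))).card : ℝ) * s ^ 7 ≤
        C₄ * z * Φ u * 4 ^ u := by
      refine (h4 b y u s Φ hMR.b1 hy5 hMR.s1 hΦ hIH).trans ?_
      have h5 : C₄ / y ≤ C₄ * z := by
        rw [div_eq_mul_one_div]
        exact mul_le_mul_of_nonneg_left hzy (by linarith)
      have h6 : 0 ≤ Φ u := by linarith
      have h7 := mul_le_mul_of_nonneg_right h5 h6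
      exact mul_le_mul_of_nonneg_right h7 h4u.le
    have e3 : ((SB b y u s).card : ℝ) * s ^ 7 ≤
        (Cd + Cd * z * Φ u) * 4 ^ u + Cₐ * 4 ^ u + Ce * 4 ^ u := by
      have hd0 : 0 ≤ (Cd + Cd * z * Φ u) * 4 ^ u := by
        have := mul_nonneg (by linarith : 0 ≤ Cd) hzΦ
        have h9 : 0 ≤ Cd + Cd * z * Φ u := by linarith [mul_assoc Cd z (Φ u)]
        positivity
      rcases le_total (((u : ℝ) + 1) ^ C₁) s with h5 | h5
      · have h6 := hA b y u s hMR hy5 hu h5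
        have : 0 ≤ Ce * 4 ^ u := by
          have : 0 ≤ Ce := by linarith
          positivity
        linarith
      · have h6 := hE b y u s hMR hyy₂ hu h5
        have h7 := hD b y u s Φ hMR hyy₁ hΦ hIH
        have h8 : ((SB b y u s).card : ℝ) ≤
            (∑ i ∈ range (2 * u / 25 + 1), ((SI b y u s i).card : ℝ)) + ((SII b y u s).card : ℝ) := by
          have h9 := (card_le_card (FM_cover b y u s)).trans (card_union_le _ _)
          have h10 : (SB b y u s).card ≤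
              (∑ i ∈ range (2 * u / 25 + 1), (SI b y u s i).card) + (SII b y u s).card :=
            h9.trans (Nat.add_le_add_right card_biUnion_le _)
          exact_mod_cast h10
        have h9 := mul_le_mul_of_nonneg_right h8 hs7
        rw [add_mul] at h9
        have : 0 ≤ Cₐ * 4 ^ u := by
          have : 0 ≤ Cₐ := by linarith
          positivity
        rw [← hz] at h7
        linarith
    have e4 : ((SU b y u s).card : ℝ) ≤
        (((SU b y u s).filter (fun p => ¬ Pm p.1 (vv b p.1 p.2))).card : ℝ) +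
        (((PR y u).filter (fun p => (2 : ℝ) ^ ((u : ℝ) / 25) < pw p.1)).card : ℝ) +
        ((SB b y u s).card : ℝ) := by
      have hsub : SU b y u s ⊆ ((SU b y u s).filter (fun p => ¬ Pm p.1 (vv b p.1 p.2)) ∪
          (PR y u).filter (fun p => (2 : ℝ) ^ ((u : ℝ) / 25) < pw p.1)) ∪ SB b y u s := by
        intro p hp
        rw [mem_union, mem_union, mem_filter, mem_filter]
        by_cases h5 : Pm p.1 (vv b p.1 p.2)
        · by_cases h6 : (2 : ℝ) ^ ((u : ℝ) / 25) < pw p.1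
          · left
            right
            refine ⟨?_, h6⟩
            unfold SU at hp
            exact (mem_filter.mp hp).1
          · right
            unfold SB
            rw [mem_filter]
            exact ⟨hp, h5, h6⟩
        · exact Or.inl (Or.inl ⟨hp, h5⟩)
      have h5 := (card_le_card hsub).trans (card_union_le _ _)
      have h6 := h5.trans (Nat.add_le_add_right (card_union_le _ _) _)
      exact_mod_cast h6
    have e5 := mul_le_mul_of_nonneg_right e4 hs7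
    rw [add_mul, add_mul] at e5
    have e6 : 0 ≤ (2 + C₃ + Cₐ + Ce) * (z * Φ u) * 4 ^ u := by
      have : 0 ≤ 2 + C₃ + Cₐ + Ce := by linarith
      positivity
    have e7 : 0 ≤ (2 + C₄) * 4 ^ u := by
      have : 0 ≤ 2 + C₄ := by linarith
      positivity
    calc ((SU b y u s).card : ℝ) * s ^ 7 ≤ _ := e5
      _ ≤ C₄ * z * Φ u * 4 ^ u + C₃ * 4 ^ u +
          ((Cd + Cd * z * Φ u) * 4 ^ u + Cₐ * 4 ^ u + Ce * 4 ^ u) := by
          linarith
      _ ≤ _ := by linarith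

end Pool.Agent.T6
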